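import Pool.Agent.Q283.PQ.Stm
import Pool.Agent.Q224.FG.FUL

/-!
# Project PQ of helper283, job FUS: the strict Selmer group and the conditions of the tables (by helper153)

Template: `Pool/Agent/Q224/FG/FUL.lean` (helper224).
-/

set_option autoImplicit false

namespace Pool.Agent.Q153.PQ

open NumberField IsDedekindDomain
open Pool.Agent.Q283.LQ (Sm)
open Pool.Agent.Q7.LK
open Pool.Agent.Q283.FT (Rt twi Gd AX)
open Pool.Agent.Q283.FG
open Pool.Agent.Q283.PQ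
open Pool.Agent.Q224.FG (rt_twi twi_twi exists_place)

section

variable {F : Type} [Field F] [NumberField F]

theorem sm_of_mem {y : ℕ} (hy : 2 ≤ y) {S : Set (HeightOneSpectrum (𝓞 F))} (hS : ∀ v ∈ S, Dp 2 v)
    {v : HeightOneSpectrum (𝓞 F)} (hv : v ∈ S) : Sm y v := ⟨2, Nat.prime_two, hy, hS v hv⟩

/-- change of the roots by a local square -/
theorem as_twi (hATP : S_ATP) (hLCP : S_LCP) {e : Fin 3 → F} (he : Rt e) {S : Set (HeightOneSpectrum (𝓞 F))}
    {v : HeightOneSpectrum (𝓞 F)} {n a b : F} (hn : Lpw 2 v n) (h : AS S v e a b) : AS S v (twi n e) a b :=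
  ⟨fun hv => (hATP F e he v).2.2.1 a b n hn (h.1 hv), fun hv => (hLCP F e he v).2.2.1 a b n hn (h.2 hv)⟩

end

/-- **JOB FUS.** -/
theorem fus (hATP : Pool.Agent.Q283.PQ.S_ATP) (hLCP : Pool.Agent.Q283.FG.S_LCP) (hGDU : Pool.Agent.Q283.FG.S_GDU)
    (hGDR : Pool.Agent.Q283.FG.S_GDR) (hRLC : Pool.Agent.Q283.FG.S_RLC) (hBAS : Pool.Agent.Q7.LK.S_BAS) :
    Pool.Agent.Q283.PQ.S_FUS := by
  intro F _ _ e he y hy hgd S hS D0 D hD0 hD hsm a b
  have : Fact (Nat.Prime 2) := ⟨Nat.prime_two⟩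
  have hsm' : ∀ v : HeightOneSpectrum (𝓞 F), Sm y v → Lpw 2 v (D0 / D) := by
    intro v hv
    have h := (hBAS 2 F v).2.2.2.1 _ (hsm.1.2 v hv)
    rwa [inv_div] at h
  have hre' : ∀ φ : F →+* ℝ, 0 < φ (D0 / D) := by
    intro φ
    have h := inv_pos.2 (hsm.2 φ)
    rwa [← map_inv₀, inv_div] at h
  have e1 : twi (D / D0) (twi D0 e) = twi D e := by rw [twi_twi, div_mul_cancel₀ _ hD0]
  have e2 : twi (D0 / D) (twi D e) = twi D0 e := by rw [twi_twi, div_mul_cancel₀ _ hD]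
  have hout : ∀ v : HeightOneSpectrum (𝓞 F), ¬ Sm y v → v ∉ S := fun v hv hvS => hv (sm_of_mem hy hS hvS)
  constructor
  · rintro ⟨h, hr⟩
    obtain ⟨v0⟩ := exists_place F
    have hne : a ≠ 0 ∧ b ≠ 0 := by
      by_cases h0 : v0 ∈ S
      · exact ⟨((h v0).1 h0).1, ((h v0).1 h0).2.1⟩
      · exact ⟨((h v0).2 h0).1, ((h v0).2 h0).2.1⟩
    refine ⟨hne, fun v hv hvl => ?_, fun v hv hvl => ?_, fun v hv => ?_, fun φ => ?_⟩
    · exact (hGDU F v e he (hgd v hv) D a b hD hne.1 hne.2 hvl).mp ((h v).2 (hout v hv))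
    · exact (hGDR F v e he (hgd v hv) D a b hD hvl).mp ((h v).2 (hout v hv))
    · have h1 := as_twi hATP hLCP (rt_twi he hD) (hsm' v hv) (h v)
      rwa [e2] at h1
    · have h1 := (hRLC F (twi D e) (rt_twi he hD) φ).2.2.1 a b (D0 / D) (hre' φ) (hr φ)
      rwa [e2] at h1
  · intro h
    refine ⟨fun v => ?_, fun φ => ?_⟩
    · by_cases hv : Sm y v
      · have h1 := as_twi hATP hLCP (rt_twi he hD0) (hsm.1.2 v hv) (h.loc v hv)
        rwa [e1] at h1
      · refine ⟨fun hvS => absurd hvS (hout v hv), fun _ => ?_⟩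
        by_cases hvl : vl 2 v D = 0
        · exact (hGDU F v e he (hgd v hv) D a b hD h.ne.1 h.ne.2 hvl).mpr (h.unr v hv hvl)
        · exact (hGDR F v e he (hgd v hv) D a b hD hvl).mpr (h.ram v hv hvl)
    · have h1 := (hRLC F (twi D0 e) (rt_twi he hD0) φ).2.2.1 a b (D / D0) (hsm.2 φ) (h.real φ)
      rwa [e1] at h1

end Pool.Agent.Q153.PQ
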