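import Pool.Agent.Q283.PQ.Stm
import Pool.Agent.Q283.FT.Stm3
import Pool.Agent.Q224.FG.FUL
import Pool.Agent.Q14.LK.Bas

/-!
# Project PQ of helper283, job PQA: the law for the strict Selmer groups, number fields without `i` (by helper153)

Template: `Pool/Agent/Q182/FG/FLAW.lean` (helper182).
-/

set_option autoImplicit false

namespace Pool.Agent.Q153.PQ.PA

open NumberField IsDedekindDomain Filter Topology Finset WeierstrassCurve Module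
open Pool.Agent.Q283.LQ (Sm Box Nest nS)
open Pool.Agent.Q7.LK
open Pool.Agent.Q283.FT (U2 Rt twi df HasN2 AX Gd LocP Dcl)
open Pool.Agent.Q283.FG
open Pool.Agent.Q283.PQ
open Pool.Agent.Q224.FG (rt_twi)
open Pool.Agent.Q14.LK (mon_ne mon_add mon_zero)

/-! ## Auxiliary facts -/

theorem nest_mono : ∀ (k : ℕ) (P Q : (Fin k → ℕ) → Prop), (∀ X, P X → Q X) → Nest k P → Nest k Q
  | 0, _, _, h, hP => h _ hP
  | k + 1, P, Q, h, hP => nest_mono k _ _ (fun X hX => by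
      filter_upwards [hX] with x hx using h _ hx) hP

theorem fn {α : Type} [Fintype α] (p : α → Prop) [DecidablePred p] :
    (univ.filter p).card = {a | p a}.ncard := by
  rw [← Set.ncard_coe_finset]
  apply congrArg
  ext a
  simp

/-- the table of a tuple -/
noncomputable def tabq {F : Type} [Field F] [NumberField F] {f k : ℕ} (ζ : F) (u : Fin f → F)
    (π : HeightOneSpectrum (𝓞 F) → F) (q : Fin k → HeightOneSpectrum (𝓞 F)) : Tab 2 f k :=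
  (fun j l => sy 2 ζ (q j) (u l), fun x => sy 2 ζ (q x.1.2) (π (q x.1.1)))

theorem tb_tabq {F : Type} [Field F] [NumberField F] {f k : ℕ} (ζ : F) (u : Fin f → F)
    (π : HeightOneSpectrum (𝓞 F) → F) (q : Fin k → HeightOneSpectrum (𝓞 F)) : Tb ζ u π (tabq ζ u π q) q :=
  ⟨fun _ _ => rfl, fun _ => rfl⟩

section cls

variable {F : Type} [Field F] {f : ℕ}

theorem mon_single (w : Fin f → F) (l : Fin f) : mon w (Pi.single l 1 : Fin f → ZMod 2) = w l := by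
  unfold mon
  rw [prod_eq_single l]
  · rw [Pi.single_eq_same]
    exact pow_one _
  · intro m _ hm
    rw [Pi.single_eq_of_ne hm, ZMod.val_zero, pow_zero]
  · intro h
    exact absurd (mem_univ l) h

theorem pow_mul [NumberField F] {u : Fin f → F} (hu : ∀ l, u l ≠ 0) {x y : F} {a b : Fin f → ZMod 2}
    (h1 : IsPow 2 (x * mon u a)) (h2 : IsPow 2 (y * mon u b)) : IsPow 2 (x * y * mon u (a + b)) := by
  have : Fact (Nat.Prime 2) := ⟨Nat.prime_two⟩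
  obtain ⟨s, hs⟩ := h1
  obtain ⟨r, hr⟩ := h2
  obtain ⟨z, hz, h3⟩ := mon_add hu a b
  refine ⟨s * r / z, ?_⟩
  rw [div_pow, mul_pow, ← hs, ← hr, eq_div_iff (pow_ne_zero 2 hz)]
  linear_combination -x * y * h3

theorem vv (c : Fin f → ZMod 2) : c + c = 0 := funext fun l => CharTwo.add_self_eq_zero (c l)

/-- the classes of the differences -/
theorem cls [NumberField F] {u : Fin f → F} (hu : ∀ l, u l ≠ 0) {t₀ : Fin f} (ht : u t₀ = -1) {e : Fin 3 → F}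
    {c : Fin 3 → Fin f → ZMod 2} (hc : Dcl u e c) (hN : NoFour e) :
    c 1 ≠ c 2 ∧ c 0 ≠ c 1 ∧ c 0 + c 2 ≠ Pi.single t₀ 1 := by
  refine ⟨fun h => hN.1 ?_, fun h => hN.2.2 ?_, fun h => hN.2.1 ?_⟩
  · have h1 := pow_mul hu (hc 1) (hc 2)
    rwa [h, vv, mon_zero, mul_one] at h1
  · have h1 := pow_mul hu (hc 0) (hc 1)
    rwa [h, vv, mon_zero, mul_one] at h1
  · have h1 := pow_mul hu (hc 0) (hc 2)
    rwa [h, mon_single, ht, mul_neg_one] at h1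

end cls

section loc

variable {F : Type} [Field F] [NumberField F]

theorem tx_as (hATP : S_ATP) (hLCP : S_LCP) {e : Fin 3 → F} (he : Rt e) {S : Set (HeightOneSpectrum (𝓞 F))}
    {v : HeightOneSpectrum (𝓞 F)} {a b : F} (h : TX v e a b) : AS S v e a b :=
  ⟨fun _ => (hATP F e he v).2.2.2.1 a b h, fun _ => (hLCP F e he v).2.2.2 a b h⟩

theorem locR (hATP : S_ATP) (hLCP : S_LCP) (hRLC : S_RLC) {e : Fin 3 → F} (he : Rt e)
    (S : Set (HeightOneSpectrum (𝓞 F))) (y : ℕ) : LocR y (fun v => AS S v e) (fun φ => RX φ e) where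
  fin :=
    { ne := fun v a b _ h => by
        by_cases hv : v ∈ S
        · exact ⟨(h.1 hv).1, (h.1 hv).2.1⟩
        · exact ⟨(h.2 hv).1, (h.2 hv).2.1⟩
      mul := fun v a b a' b' _ h h' =>
        ⟨fun hv => (hATP F e he v).1 a b a' b' (h.1 hv) (h'.1 hv),
          fun hv => (hLCP F e he v).1 a b a' b' (h.2 hv) (h'.2 hv)⟩
      pow := fun v a b _ ha hb => tx_as hATP hLCP he (Or.inl ⟨ha, hb⟩) }
  rne := fun φ a b h => ⟨h.1, h.2.1⟩
  rmul := fun φ a b a' b' h h' => (hRLC F e he φ).1 a b a' b' h h'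
  rpos := fun φ a b h h' => (hRLC F e he φ).2.1 a b h h'

end loc

theorem ineq {K T N U a e : ℝ} (hT : 0 < T) (hN : 0 < N) (h1 : |K * T - U * N| ≤ e / 2 * N * T)
    (h2 : U ≤ (a + e / 2) * T) : K ≤ (a + e) * N := by
  have h3 := (abs_le.1 h1).2
  have h4 : U * N ≤ (a + e / 2) * T * N := mul_le_mul_of_nonneg_right h2 hN.le
  have h5 : K * T ≤ ((a + e) * N) * T := by nlinarith
  exact le_of_mul_le_mul_right h5 hT

open Classical in
/-- **JOB PQA.** -/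
theorem pqa (hTBS : Pool.Agent.Q283.PQ.S_TBS) (hLSS : Pool.Agent.Q283.PQ.S_LSS) (hFUS : Pool.Agent.Q283.PQ.S_FUS)
    (hATP : Pool.Agent.Q283.PQ.S_ATP) (hTRF : S_TRF) (hBSE : S_BSE) (hG0 : S_G0) (hSXX : S_SXX) (hSBM : S_SBM)
    (hTRS : S_TRS) (hGDS : Pool.Agent.Q283.FT.S_GDS) (hLOK : S_LOK) (hDCE : S_DCE) (hLCP : S_LCP) (hRLC : S_RLC) :
    Pool.Agent.Q283.PQ.S_PQA := by
  intro F _ _ ζ hζ hsq t s hb e hRt hNF
  obtain ⟨y1, hy1⟩ := hBSE F ζ hζ t s hb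
  obtain ⟨y2, hy2⟩ := hGDS F e hRt
  refine ⟨max y1 y2, fun y hy D0 hD0 S hS ε hε => ?_⟩
  obtain ⟨f, u0, r0, π0, g0, hB0, hFrm0, hf, hfin⟩ := hy1 y (le_trans (le_max_left _ _) hy)
  obtain ⟨t₀, u, r, π, hB, hFrm, hu⟩ := hG0 F ζ hζ hsq t s hb y f u0 r0 π0 g0 hB0 hFrm0 hfin
  have hgd : ∀ v : HeightOneSpectrum (𝓞 F), ¬ Sm y v → Gd v e := hy2 y (le_trans (le_max_right _ _) hy)
  obtain ⟨c, hc⟩ := (hDCE F ζ hζ y f t₀ u r π _ hB hu).1 e hRt hgd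
  obtain ⟨h12, h01, h02⟩ := cls hB.ue hu hc hNF
  obtain ⟨⟨ψ, w⟩, hψ, _⟩ := hB.cls D0 hD0
  simp only at hψ
  obtain ⟨𝓛, hMem, hOk⟩ := hLOK F ζ hζ t s hb y f t₀ u r π hB hFrm hu hf hfin e c hRt hc D0 ψ w hD0 hψ
  have hRt0 : Rt (twi D0 e) := rt_twi hRt hD0
  have hLR := locR hATP hLCP hRLC hRt0 S y
  obtain ⟨𝓛', hMem'⟩ := hSBM F ζ hζ y f u r π _ hB (fun v => AS S v (twi D0 e)) (fun φ => RX φ (twi D0 e)) hLR
  obtain ⟨-, hidx⟩ := hLSS F ζ hζ y f u r π _ hB hfin (twi D0 e) hRt0 S hS 𝓛 𝓛' hMem hMem'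
  have hcard : Nat.card 𝓛 = 4 ^ f := by
    have h1 := hOk.card
    rw [Fintype.card_fin, Nat.card_eq_fintype_card (α := U2), Fintype.card_prod, ZMod.card] at h1
    exact h1
  rw [hcard] at hidx
  obtain ⟨M, hM⟩ : ∃ M : ℕ, M = ∑ᶠ v : {v : HeightOneSpectrum (𝓞 F) // v ∈ S}, dv 2 v.1 := ⟨_, rfl⟩
  rw [← hM] at hidx ⊢
  have htor := hTRS F ζ hζ y f t₀ u r π hB hu e c hRt hc D0 ψ w hD0 hψ (fun v => AS S v (twi D0 e))
    (fun φ => RX φ (twi D0 e)) (fun v a b _ h => tx_as hATP hLCP hRt0 h)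
    (fun φ a b h h' => (hRLC F _ hRt0 φ).2.1 a b h h') (fun φ l => (hRLC F _ hRt0 φ).2.2.2.1 l)
    (fun φ a b a' b' h h1 h2 => (hRLC F _ hRt0 φ).1 a b a' b' h ((hRLC F _ hRt0 φ).2.1 a' b' h1 h2)) 𝓛' hMem'
  -- the number of the classes
  have key : ∀ (k : ℕ) (q : Fin k → HeightOneSpectrum (𝓞 F)), Function.Injective q → (∀ i, ¬ Sm y (q i)) →
      ∀ τ : Tab 2 f k, Tb ζ u π τ q → ∀ D : F, FR y D0 q D → ∀ N : ℕ,
      (HasN2 (SRS S (twi D e)) N ↔ N = nSelG (djS t₀ c w 𝓛') τ) := by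
    intro k q hq hqs τ hτ D hD N
    have h1 : SRS S (twi D e) = CondP y (fun v => AS S v (twi D0 e)) (fun φ => RX φ (twi D0 e)) e D := by
      funext a b
      exact propext (hFUS F e hRt y hB.two hgd S hS D0 D hD0 hD.1.ne
        ⟨⟨div_ne_zero hD.1.ne hD0, hD.1.loc⟩, hD.2⟩ a b)
    rw [h1]
    exact hSXX F ζ hζ y f t₀ u r π hB hu e c hRt hc (fun v => AS S v (twi D0 e))
      (fun φ => RX φ (twi D0 e)) 𝓛' hMem' D0 ψ w hD0 hψ k q hq hqs τ hτ D hD N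
  obtain ⟨k0, hk0⟩ := hTBS f t₀ c w 𝓛' ψ M h12 h01 h02 hidx htor (ε / 2) (by positivity)
  refine ⟨max k0 1, fun k hk => ?_⟩
  have hk1 : 1 ≤ k := (le_max_right _ _).trans hk
  have hT1 := hk0 k ((le_max_left _ _).trans hk)
  refine nest_mono k _ _ (fun X hX => ?_) (hTRF F ζ hζ y f u r π _ hB D0 ψ w hD0 hψ k hk1 (ε / 2) (by positivity))
  obtain ⟨hfinB, hpos, htab, hP⟩ := hX
  refine ⟨hfinB, hpos, ?_⟩
  have h1 := hP (fun τ => nSelG (djS t₀ c w 𝓛') τ ≠ 4)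
  have hset : {q ∈ (Box y X : Set (Fin k → HeightOneSpectrum (𝓞 F))) | (∃ D, FR y D0 q D) ∧
        ¬ ∀ D, FR y D0 q D → HasN2 (SRS S (twi D e)) 4} ⊆
      {q ∈ (Box y X : Set (Fin k → HeightOneSpectrum (𝓞 F))) | (∃ D, FR y D0 q D) ∧
          ∃ τ, Tb ζ u π τ q ∧ nSelG (djS t₀ c w 𝓛') τ ≠ 4} := by
    rintro q ⟨hq, hD0', hall⟩
    push Not at hall
    obtain ⟨D, hD, hne⟩ := hall
    refine ⟨hq, hD0', tabq ζ u π q, tb_tabq ζ u π q, fun h => hne ?_⟩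
    exact (key k q hq.1 (fun j => (hq.2 j).1) _ (tb_tabq ζ u π q) D hD 4).2 h.symm
  have hle : ({q ∈ (Box y X : Set (Fin k → HeightOneSpectrum (𝓞 F))) | (∃ D, FR y D0 q D) ∧
        ¬ ∀ D, FR y D0 q D → HasN2 (SRS S (twi D e)) 4}.ncard : ℝ) ≤
      ({q ∈ (Box y X : Set (Fin k → HeightOneSpectrum (𝓞 F))) | (∃ D, FR y D0 q D) ∧
          ∃ τ, Tb ζ u π τ q ∧ nSelG (djS t₀ c w 𝓛') τ ≠ 4}.ncard : ℝ) :=
    Nat.cast_le.2 (Set.ncard_le_ncard hset (hfinB.subset (Set.sep_subset _ _)))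
  refine hle.trans ?_
  obtain ⟨N, hN⟩ : ∃ N : ℝ, N = ({q ∈ (Box y X : Set (Fin k → HeightOneSpectrum (𝓞 F))) |
    ∃ D, FR y D0 q D}.ncard : ℝ) := ⟨_, rfl⟩
  obtain ⟨T, hT⟩ : ∃ T : ℝ, T = ((univ.filter (fun τ : Tab 2 f k => ∑ j, (1 : ZMod 2) • τ.1 j = ψ)).card : ℝ) :=
    ⟨_, rfl⟩
  have hTpos : 0 < T := by
    rw [hT, Nat.cast_pos, Finset.card_pos]
    refine ⟨(fun j => if j = ⟨0, hk1⟩ then ψ else 0, 0), ?_⟩
    rw [mem_filter]
    refine ⟨mem_univ _, ?_⟩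
    simp only
    rw [Finset.sum_eq_single (⟨0, hk1⟩ : Fin k)]
    · rw [if_pos rfl, one_smul]
    · intro j _ hj
      rw [if_neg hj, smul_zero]
    · intro h
      exact absurd (mem_univ _) h
  simp only [fn] at hT hT1 h1
  rw [← hN] at hpos h1 ⊢
  rw [← hT] at hT1 h1
  exact ineq hTpos hpos h1 hT1

end Pool.Agent.Q153.PQ.PA
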