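import Pool.Agent.Q283.PQ.Stm

/-!
# Project PQ of helper283, job PRB: the probability of one solution (by helper153)
-/

set_option autoImplicit false

namespace Pool.Agent.Q153.PQ

open Finset
open Pool.Agent.Q283.FT (U2 om)
open Pool.Agent.Q283.PQ

/-! ## Signs -/

/-- the sign `(-1) ^ a` -/
def sgn (a : ZMod 2) : ℤ := if a = 0 then 1 else -1

theorem sgn_add : ∀ a b : ZMod 2, sgn (a + b) = sgn a * sgn b := by decide

theorem sgn_zero : sgn 0 = 1 := rfl

theorem sgn_le : ∀ a : ZMod 2, sgn a ≤ 1 := by decide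

theorem sgn_sum {ι : Type} (s : Finset ι) (f : ι → ZMod 2) : sgn (∑ i ∈ s, f i) = ∏ i ∈ s, sgn (f i) := by
  classical
  induction s using Finset.induction_on with
  | empty => rw [sum_empty, prod_empty, sgn_zero]
  | insert i s hi ih => rw [sum_insert hi, prod_insert hi, sgn_add, ih]

theorem om_apply (w z : U2) : om w z = w.1 * z.2 + w.2 * z.1 := rfl

theorem sum_om (z : U2) : ∑ w : U2, sgn (om w z) = if z = 0 then 4 else 0 := by
  have h : ∀ z : ZMod 2 × ZMod 2, ∑ w : ZMod 2 × ZMod 2, sgn (w.1 * z.2 + w.2 * z.1) = if z = 0 then 4 else 0 := by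
    decide
  simp only [om_apply]
  exact h z

theorem sum_sgn (y : ZMod 2) : ∑ a : ZMod 2, sgn (a * y) = if y = 0 then 2 else 0 := by
  have h : ∀ y : ZMod 2, ∑ a : ZMod 2, sgn (a * y) = if y = 0 then 2 else 0 := by decide
  exact h y

theorem sum_pi {ι α : Type} [Fintype ι] [DecidableEq ι] [Fintype α] (f : ι → α → ZMod 2) :
    ∑ W : ι → α, sgn (∑ p, f p (W p)) = ∏ p, ∑ w : α, sgn (f p w) := by
  rw [Finset.prod_univ_sum, Fintype.piFinset_univ]
  exact sum_congr rfl fun W _ => sgn_sum _ _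

theorem prod_ite_all {ι : Type} [Fintype ι] (P : ι → Prop) [DecidablePred P] [Decidable (∀ i, P i)] (c : ℤ) :
    (∏ i, if P i then c else 0) = if ∀ i, P i then c ^ Fintype.card ι else 0 := by
  split
  · rename_i h
    rw [prod_congr rfl fun i _ => if_pos (h i), prod_const, card_univ]
  · rename_i h
    push Not at h
    obtain ⟨i, hi⟩ := h
    exact prod_eq_zero (mem_univ i) (if_neg hi)

/-- the characters of `Fin k → U2` -/
theorem sum_W {k : ℕ} (z : Fin k → U2) :
    ∑ W : Fin k → U2, sgn (∑ p, om (W p) (z p)) = if ∀ p, z p = 0 then 4 ^ k else 0 := by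
  rw [sum_pi fun p w => om w (z p), prod_congr rfl fun p _ => sum_om (z p), prod_ite_all, Fintype.card_fin]

/-- the characters of the tables -/
theorem sum_t {ι : Type} [Fintype ι] [DecidableEq ι] (y : ι → ZMod 2) :
    ∑ t : ι → ZMod 2, sgn (∑ e, t e * y e) = if ∀ e, y e = 0 then (Fintype.card (ι → ZMod 2) : ℤ) else 0 := by
  rw [sum_pi fun e a => a * y e, prod_congr rfl fun e _ => sum_sgn (y e), prod_ite_all, Fintype.card_fun, ZMod.card]
  push_cast
  rfl

/-! ## The pairing -/

theorem sum_dite_sub {α : Type} [Fintype α] {P : α → Prop} [DecidablePred P] (F : {x // P x} → ZMod 2) :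
    (∑ z : α, if h : P z then F ⟨z, h⟩ else 0) = ∑ e, F e := by
  rw [← Fintype.sum_subtype_add_sum_subtype P (fun z => if h : P z then F ⟨z, h⟩ else 0)]
  have h1 : (∑ z : {x // P x}, if h : P z.1 then F ⟨z.1, h⟩ else 0) = ∑ e, F e :=
    sum_congr rfl fun z _ => by rw [dif_pos z.2]
  have h2 : (∑ z : {x // ¬ P x}, if h : P z.1 then F ⟨z.1, h⟩ else 0) = 0 :=
    sum_eq_zero fun z _ => by rw [dif_neg z.2]
  rw [h1, h2, add_zero]

/-- the random part of the symbols -/
theorem sum_table {k : ℕ} (t : Tt k) (a : Fin k → Fin k → ZMod 2) :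
    ∑ p, ∑ q, (if h : p < q then t ⟨(p, q), h⟩ else if h : q < p then t ⟨(q, p), h⟩ else 0) * a p q =
      ∑ e : {x : Fin k × Fin k // x.1 < x.2}, t e * (a e.1.1 e.1.2 + a e.1.2 e.1.1) := by
  have h1 : ∀ p q : Fin k, (if h : p < q then t ⟨(p, q), h⟩ else if h : q < p then t ⟨(q, p), h⟩ else 0) * a p q =
      (if h : p < q then t ⟨(p, q), h⟩ * a p q else 0) + (if h : q < p then t ⟨(q, p), h⟩ * a p q else 0) := by
    intro p q
    rcases lt_trichotomy p q with h | h | h
    · rw [dif_pos h, dif_pos h, dif_neg (not_lt.2 h.le), add_zero]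
    · subst h
      rw [dif_neg (lt_irrefl _), dif_neg (lt_irrefl _), dif_neg (lt_irrefl _), zero_mul, add_zero]
    · rw [dif_neg (not_lt.2 h.le), dif_pos h, dif_neg (not_lt.2 h.le), dif_pos h, zero_add]
  have h2 := sum_dite_sub (P := fun x : Fin k × Fin k => x.1 < x.2) fun e => t e * a e.1.1 e.1.2
  have h3 := sum_dite_sub (P := fun x : Fin k × Fin k => x.1 < x.2) fun e => t e * a e.1.2 e.1.1
  rw [Fintype.sum_prod_type] at h2 h3
  simp only [h1, sum_add_distrib, mul_add]
  rw [← h2, ← h3]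
  congr 1
  exact sum_comm

/-- the pairing of the rows with `W` -/
theorem pair {k : ℕ} (A : Fin k → Fin k → ZMod 2) (x b W : Fin k → U2) (t : Tt k) :
    ∑ p, om (W p) (∑ q, Nt A t p q • (x q + x p) + b p) =
      ∑ e : {x : Fin k × Fin k // x.1 < x.2}, t e * om (W e.1.1 + W e.1.2) (x e.1.1 + x e.1.2) +
        ∑ p, om (W p) (b p + ∑ q, A p q • (x q + x p)) := by
  have h1 : ∀ p, om (W p) (∑ q, Nt A t p q • (x q + x p) + b p) =
      ∑ q, (if h : p < q then t ⟨(p, q), h⟩ else if h : q < p then t ⟨(q, p), h⟩ else 0) * om (W p) (x q + x p) +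
        om (W p) (b p + ∑ q, A p q • (x q + x p)) := by
    intro p
    simp only [Nt, add_smul, sum_add_distrib, map_add, map_sum, map_smul, smul_eq_mul]
    ring
  rw [sum_congr rfl fun p _ => h1 p, sum_add_distrib, sum_table]
  congr 1
  refine sum_congr rfl fun e _ => ?_
  congr 1
  rw [map_add om, LinearMap.add_apply, add_comm (x e.1.2)]

/-! ## The statement -/

open scoped Classical in
/-- **JOB PRB.** -/
theorem prb : Pool.Agent.Q283.PQ.S_PRB := by
  intro k A x b
  constructor
  · have hY : ∀ W : Fin k → U2, (∀ i j, om (W i + W j) (x i + x j) = 0) ↔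
        ∀ e : {x : Fin k × Fin k // x.1 < x.2}, om (W e.1.1 + W e.1.2) (x e.1.1 + x e.1.2) = 0 := by
      intro W
      refine ⟨fun h e => h _ _, fun h i j => ?_⟩
      rcases lt_trichotomy i j with h1 | h1 | h1
      · exact h ⟨(i, j), h1⟩
      · subst h1
        have h2 : x i + x i = 0 := by
          have h3 : (2 : ZMod 2) • x i = x i + x i := two_smul _ _
          rw [← h3]
          have h4 : (2 : ZMod 2) = 0 := rfl
          rw [h4, zero_smul]
        rw [h2, map_zero]
      · rw [add_comm (W i), add_comm (x i)]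
        exact h ⟨(j, i), h1⟩
    have key : ((univ.filter fun t : Tt k => ∀ p, ∑ q, Nt A t p q • (x q + x p) + b p = 0).card : ℤ) * 4 ^ k ≤
        (Fintype.card (Tt k) : ℤ) *
          ((univ.filter fun W : Fin k → U2 => ∀ i j, om (W i + W j) (x i + x j) = 0).card : ℤ) := by
      have e1 : ((univ.filter fun t : Tt k => ∀ p, ∑ q, Nt A t p q • (x q + x p) + b p = 0).card : ℤ) * 4 ^ k =
          ∑ t : Tt k, ∑ W : Fin k → U2, sgn (∑ p, om (W p) (∑ q, Nt A t p q • (x q + x p) + b p)) := by
        simp only [sum_W]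
        rw [← sum_filter, sum_const, nsmul_eq_mul]
      have e2 : ∀ W : Fin k → U2, ∑ t : Tt k, sgn (∑ p, om (W p) (∑ q, Nt A t p q • (x q + x p) + b p)) ≤
          if ∀ i j, om (W i + W j) (x i + x j) = 0 then (Fintype.card (Tt k) : ℤ) else 0 := by
        intro W
        simp only [pair, sgn_add]
        rw [← sum_mul, sum_t]
        by_cases h : ∀ i j, om (W i + W j) (x i + x j) = 0
        · rw [if_pos h, if_pos ((hY W).1 h)]
          have h5 := sgn_le (∑ p, om (W p) (b p + ∑ q, A p q • (x q + x p)))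
          have h6 : (0 : ℤ) ≤ (Fintype.card (Tt k) : ℤ) := Int.natCast_nonneg _
          nlinarith
        · rw [if_neg h, if_neg (fun h' => h ((hY W).2 h')), zero_mul]
      rw [e1, sum_comm]
      refine (sum_le_sum fun W _ => e2 W).trans (le_of_eq ?_)
      rw [← sum_filter, sum_const, nsmul_eq_mul, mul_comm]
    have h7 : (((univ.filter fun t : Tt k => ∀ p, ∑ q, Nt A t p q • (x q + x p) + b p = 0).card * 4 ^ k : ℕ) : ℤ) ≤
        ((Fintype.card (Tt k) *
          (univ.filter fun W : Fin k → U2 => ∀ i j, om (W i + W j) (x i + x j) = 0).card : ℕ) : ℤ) := by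
      push_cast
      exact key
    exact Int.ofNat_le.1 h7
  · rintro ⟨t, ht⟩ W hW
    have h1 := pair A x b W t
    have h2 : ∑ p, om (W p) (∑ q, Nt A t p q • (x q + x p) + b p) = 0 :=
      sum_eq_zero fun p _ => by rw [ht p, map_zero]
    have h3 : ∑ e : {x : Fin k × Fin k // x.1 < x.2}, t e * om (W e.1.1 + W e.1.2) (x e.1.1 + x e.1.2) = 0 :=
      sum_eq_zero fun e _ => by rw [hW, mul_zero]
    rw [h2, h3, zero_add] at h1
    exact h1.symm

end Pool.Agent.Q153.PQ
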