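import Pool.Agent.Q283.PQ.Stm
import Pool.Agent.Q283.FT.Stm2

/-!
# Project PQ of helper283, job TBS: few tables have more than the four solutions of the torsion (by helper153)

The summation over the labels follows `Pool/Agent/Q252/FG/TBL.lean` (helper252).
-/

set_option autoImplicit false

namespace Pool.Agent.Q153.PQ.TB

open Filter Topology Finset Module
open Pool.Agent.Q283.FG (opS djS nSelG gs NG)
open Pool.Agent.Q283.FT (U2 om)
open Pool.Agent.Q283.PQ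
open Pool.Agent.Q7.LK (Tab Mt dot)
open Q44.JQ (clL rowL Sel Dj)
open scoped Classical

/-! ## The operators -/

section op

variable {f : ℕ}

theorem dot_single (l : Fin f) (z : Fin f → ZMod 2) : dot (Pi.single l 1) z = z l := by
  unfold dot
  rw [sum_eq_single l]
  · rw [Pi.single_eq_same, one_mul]
  · intro m _ hm
    rw [Pi.single_eq_of_ne hm, zero_mul]
  · intro h
    exact absurd (mem_univ l) h

theorem exists_dot {z : Fin f → ZMod 2} (hz : z ≠ 0) : ∃ φ : Fin f → ZMod 2, dot φ z ≠ 0 := by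
  obtain ⟨l, hl⟩ := Function.ne_iff.1 hz
  exact ⟨Pi.single l 1, by rw [dot_single]; exact hl⟩

theorem dot_add (φ x y : Fin f → ZMod 2) : dot φ (x + y) = dot φ x + dot φ y := by
  simp only [dot, Pi.add_apply, mul_add, sum_add_distrib]

theorem dot_single_right (φ : Fin f → ZMod 2) (l : Fin f) : dot φ (Pi.single l 1) = φ l := by
  unfold dot
  rw [sum_eq_single l]
  · rw [Pi.single_eq_same, mul_one]
  · intro m _ hm
    rw [Pi.single_eq_of_ne hm, mul_zero]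
  · intro h
    exact absurd (mem_univ l) h

theorem zz (a : ZMod 2) : a + a = 0 := CharTwo.add_self_eq_zero a

theorem uu (a : U2) : a + a = 0 := Prod.ext (zz _) (zz _)

theorem ne_add {x y : Fin f → ZMod 2} (h : x ≠ y) : x + y ≠ 0 := by
  intro h0
  apply h
  funext l
  have h1 : x l + y l = 0 := congrFun h0 l
  exact CharTwo.add_eq_zero.1 h1

theorem om_opS (t₀ : Fin f) (c : Fin 3 → Fin f → ZMod 2) (w : Fin f → ZMod 2) (h12 : c 1 ≠ c 2) (h01 : c 0 ≠ c 1)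
    (h02 : c 0 + c 2 ≠ Pi.single t₀ 1) (v : U2) (hv : v ≠ 0) : ∃ φ, om v (opS t₀ c w φ v) ≠ 0 := by
  have e : ∀ φ : Fin f → ZMod 2, om v (opS t₀ c w φ v) =
      v.1 * (dot φ (c 2) * (v.1 + v.2) + dot φ (c 0) * v.1 + dot φ w * v.2 + φ t₀ * v.1) +
        v.2 * (dot φ (c 2) * (v.1 + v.2) + dot φ (c 1) * v.2 + dot φ w * v.1 + φ t₀ * v.1) := fun φ => rfl
  have h2 : ∀ a : ZMod 2, a = 0 ∨ a = 1 := by decide
  obtain ⟨x, y⟩ := v
  rcases h2 x with rfl | rfl <;> rcases h2 y with rfl | rfl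
  · exact absurd rfl hv
  · obtain ⟨φ, hφ⟩ := exists_dot (ne_add h12)
    refine ⟨φ, fun h => hφ ?_⟩
    rw [e] at h
    rw [dot_add]
    linear_combination h
  · obtain ⟨φ, hφ⟩ := exists_dot (ne_add h02)
    refine ⟨φ, fun h => hφ ?_⟩
    rw [e] at h
    rw [dot_add, dot_add, dot_single_right]
    linear_combination h
  · obtain ⟨φ, hφ⟩ := exists_dot (ne_add h01)
    refine ⟨φ, fun h => hφ ?_⟩
    rw [e] at h
    rw [dot_add]
    have h3 : (2 : ZMod 2) = 0 := rfl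
    linear_combination h - (2 * dot φ (c 2) + dot φ w + φ t₀) * h3

end op

/-! ## The solutions for fixed labels -/

section sel

variable {f k : ℕ}

/-- the fixed part of the symbols -/
def fix (t₀ : Fin f) (φ : Fin k → Fin f → ZMod 2) (p q : Fin k) : ZMod 2 :=
  if p < q then φ q t₀ * φ p t₀ else 0

theorem nt_eq (t₀ : Fin f) (φ : Fin k → Fin f → ZMod 2) (t : Tt k) (p q : Fin k) :
    Nt (fix t₀ φ) t p q = NG t₀ (φ, t) p q := by
  unfold Nt NG Mt fix
  rcases lt_trichotomy p q with h | h | h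
  · rw [dif_pos h, if_pos h, dif_neg (not_lt.2 h.le), dif_pos h]
    rfl
  · subst h
    rw [dif_neg (lt_irrefl _), dif_neg (lt_irrefl _), if_neg (lt_irrefl _), dif_neg (lt_irrefl _),
      dif_neg (lt_irrefl _), add_zero]
  · rw [dif_neg (not_lt.2 h.le), dif_pos h, if_neg (not_lt.2 h.le), dif_pos h, add_zero]

theorem mem_Sel (D : Dj (Fin f) U2) (N : Fin k → Fin k → ZMod 2) (h : Fin k → Fin f → ZMod 2)
    (e : (Fin f → U2) × (Fin k → U2)) :
    e ∈ Sel D N h ↔ clL h e ∈ D.𝓛 ∧ ∀ p, rowL D N h e p = 0 := by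
  unfold Sel
  rw [Submodule.mem_inf, Submodule.mem_comap, LinearMap.mem_ker, funext_iff]
  rfl

variable (t₀ : Fin f) (c : Fin 3 → Fin f → ZMod 2) (w : Fin f → ZMod 2)
  (𝓛 : Submodule (ZMod 2) ((Fin f → U2) × (Fin f → U2)))

theorem mem_S (φ : Fin k → Fin f → ZMod 2) (t : Tt k) (z : (Fin f → U2) × (Fin k → U2)) :
    z ∈ Sel (djS t₀ c w 𝓛) (NG t₀ (φ, t)) φ ↔ (z.1, fun l => ∑ p, φ p l • z.2 p) ∈ 𝓛 ∧
      ∀ p, ∑ q, Nt (fix t₀ φ) t p q • (z.2 q + z.2 p) + opS t₀ c w (φ p) (z.2 p) + ∑ l, φ p l • z.1 l = 0 := by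
  rw [mem_Sel]
  refine and_congr Iff.rfl (forall_congr' fun p => ?_)
  have h : rowL (djS t₀ c w 𝓛) (NG t₀ (φ, t)) φ z p =
      ∑ q, NG t₀ (φ, t) p q • (z.2 q + z.2 p) + opS t₀ c w (φ p) (z.2 p) + ∑ l, φ p l • z.1 l := rfl
  rw [h]
  simp only [nt_eq]

/-- the solutions of the torsion -/
noncomputable def tor (a : U2) : (Fin f → U2) × (Fin k → U2) :=
  ((fun t => opS t₀ c w (Pi.single t 1) a), fun _ => a)

theorem op_sum (φ : Fin f → ZMod 2) (a : U2) : ∑ l, φ l • opS t₀ c w (Pi.single l 1) a = opS t₀ c w φ a := by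
  have h1 : φ = ∑ l, φ l • (Pi.single l 1 : Fin f → ZMod 2) := by
    funext m
    rw [Finset.sum_apply]
    simp only [Pi.smul_apply, smul_eq_mul, Pi.single_apply, mul_ite, mul_one, mul_zero]
    rw [Finset.sum_ite_eq univ m φ, if_pos (mem_univ m)]
  conv_rhs => rw [h1]
  rw [map_sum, LinearMap.sum_apply]
  exact sum_congr rfl fun l _ => by rw [map_smul, LinearMap.smul_apply]

theorem const_iff {ρ : Fin f → ZMod 2}
    (htor : ∀ x : U2, ((fun t => opS t₀ c w (Pi.single t 1) x), (fun t => ρ t • x)) ∈ 𝓛)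
    (φ : Fin k → Fin f → ZMod 2) (hφ : ∑ j, φ j = ρ) (hall : ∀ χ, ∃ i, φ i = χ) (t : Tt k) :
    {z : (Fin f → U2) × (Fin k → U2) | z ∈ Sel (djS t₀ c w 𝓛) (NG t₀ (φ, t)) φ ∧ ∀ i j, z.2 i = z.2 j} =
      Set.range (tor t₀ c w) := by
  ext z
  constructor
  · rintro ⟨hz, hc⟩
    obtain ⟨i0, -⟩ := hall 0
    rw [mem_S] at hz
    refine ⟨z.2 i0, ?_⟩
    have h2 : z.2 = fun _ => z.2 i0 := funext fun i => hc i i0
    refine Prod.ext ?_ h2.symm
    funext l
    obtain ⟨p, hp⟩ := hall (Pi.single l 1)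
    have h3 := hz.2 p
    have h4 : ∑ q, Nt (fix t₀ φ) t p q • (z.2 q + z.2 p) = 0 :=
      sum_eq_zero fun q _ => by rw [hc q p, uu, smul_zero]
    have h5 : ∑ m, φ p m • z.1 m = z.1 l := by
      rw [hp, sum_eq_single l]
      · rw [Pi.single_eq_same, one_smul]
      · intro m _ hm
        rw [Pi.single_eq_of_ne hm, zero_smul]
      · intro h
        exact absurd (mem_univ l) h
    rw [h4, h5, zero_add, hp, hc p i0] at h3
    show opS t₀ c w (Pi.single l 1) (z.2 i0) = z.1 l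
    have h6 := congrArg (· + z.1 l) h3
    simp only [add_assoc, uu, add_zero, zero_add] at h6
    exact h6
  · rintro ⟨a, rfl⟩
    refine ⟨?_, fun _ _ => rfl⟩
    rw [mem_S]
    constructor
    · have h1 : (fun l => ∑ p, φ p l • (tor (k := k) t₀ c w a).2 p) = fun l => ρ l • a := by
        funext l
        show ∑ p, φ p l • a = ρ l • a
        rw [← sum_smul, ← hφ, Finset.sum_apply]
      rw [h1]
      exact htor a
    · intro p
      have h4 : ∑ q, Nt (fix t₀ φ) t p q • ((tor (k := k) t₀ c w a).2 q + (tor (k := k) t₀ c w a).2 p) = 0 :=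
        sum_eq_zero fun q _ => by
          show _ • (a + a) = _
          rw [uu, smul_zero]
      rw [h4, zero_add]
      show opS t₀ c w (φ p) a + ∑ l, φ p l • opS t₀ c w (Pi.single l 1) a = 0
      rw [op_sum, uu]

theorem card_U2 : Nat.card U2 = 4 := by
  rw [Nat.card_eq_fintype_card, Fintype.card_prod, ZMod.card]

/-- the number of the solutions -/
theorem nSel_eq {ρ : Fin f → ZMod 2}
    (htor : ∀ x : U2, ((fun t => opS t₀ c w (Pi.single t 1) x), (fun t => ρ t • x)) ∈ 𝓛)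
    (φ : Fin k → Fin f → ZMod 2) (hφ : ∑ j, φ j = ρ) (hall : ∀ χ, ∃ i, φ i = χ) (t : Tt k) :
    nSelG (djS t₀ c w 𝓛) (φ, t) = 4 + (NonC (opS t₀ c w) 𝓛 φ (fix t₀ φ) t).ncard := by
  have h1 : nSelG (djS t₀ c w 𝓛) (φ, t) =
      ((Sel (djS t₀ c w 𝓛) (NG t₀ (φ, t)) φ : Set ((Fin f → U2) × (Fin k → U2)))).ncard := rfl
  have h2 : (Sel (djS t₀ c w 𝓛) (NG t₀ (φ, t)) φ : Set ((Fin f → U2) × (Fin k → U2))) =
      {z | z ∈ Sel (djS t₀ c w 𝓛) (NG t₀ (φ, t)) φ ∧ ∀ i j, z.2 i = z.2 j} ∪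
        NonC (opS t₀ c w) 𝓛 φ (fix t₀ φ) t := by
    ext z
    rw [SetLike.mem_coe, Set.mem_union]
    constructor
    · intro hz
      by_cases hc : ∀ i j, z.2 i = z.2 j
      · exact Or.inl ⟨hz, hc⟩
      · right
        push Not at hc
        have h3 := (mem_S t₀ c w 𝓛 φ t z).1 hz
        exact ⟨h3.1, h3.2, hc⟩
    · rintro (hz | hz)
      · exact hz.1
      · exact (mem_S t₀ c w 𝓛 φ t z).2 ⟨hz.1, hz.2.1⟩
  obtain ⟨i0, -⟩ := hall 0
  have hinj : Function.Injective (tor (k := k) t₀ c w) := fun a b hab => congrFun (congrArg Prod.snd hab) i0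
  rw [h1, h2, Set.ncard_union_eq _ (Set.toFinite _) (Set.toFinite _), const_iff t₀ c w 𝓛 htor φ hφ hall t,
    ← Set.image_univ, Set.ncard_image_of_injective _ hinj, Set.ncard_univ, card_U2]
  rw [Set.disjoint_left]
  rintro z ⟨-, hz⟩ ⟨-, -, i, j, hij⟩
  exact hij (hz i j)

theorem four_le {ρ : Fin f → ZMod 2}
    (htor : ∀ x : U2, ((fun t => opS t₀ c w (Pi.single t 1) x), (fun t => ρ t • x)) ∈ 𝓛)
    (φ : Fin k → Fin f → ZMod 2) (hφ : ∑ j, φ j = ρ) (hall : ∀ χ, ∃ i, φ i = χ) (t : Tt k)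
    (hne : nSelG (djS t₀ c w 𝓛) (φ, t) ≠ 4) : 4 ≤ (NonC (opS t₀ c w) 𝓛 φ (fix t₀ φ) t).ncard := by
  have h1 := nSel_eq t₀ c w 𝓛 htor φ hφ hall t
  have h2 : nSelG (djS t₀ c w 𝓛) (φ, t) =
      2 ^ finrank (ZMod 2) (Sel (djS t₀ c w 𝓛) (NG t₀ (φ, t)) φ) := by
    have h3 : nSelG (djS t₀ c w 𝓛) (φ, t) = Nat.card (Sel (djS t₀ c w 𝓛) (NG t₀ (φ, t)) φ) := rfl
    rw [h3, Module.natCard_eq_pow_finrank (K := ZMod 2), Nat.card_zmod]
  generalize finrank (ZMod 2) (Sel (djS t₀ c w 𝓛) (NG t₀ (φ, t)) φ) = n at h2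
  rcases Nat.lt_or_ge n 3 with h3 | h3
  · interval_cases n
    · omega
    · omega
    · exact absurd (h2.trans (by norm_num)) hne
  · have h4 : 2 ^ 3 ≤ 2 ^ n := Nat.pow_le_pow_right (by norm_num) h3
    omega

end sel

/-! ## Summation over the labels -/

/-- summation over a fibration of a product -/
theorem card_fib {α β : Type} [Fintype α] [Fintype β] (P : α → Prop) (Q : α × β → Prop)
    [DecidablePred P] [DecidablePred fun τ : α × β => P τ.1 ∧ Q τ]
    [∀ a, DecidablePred fun b : β => Q (a, b)] :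
    ((univ.filter fun τ : α × β => P τ.1 ∧ Q τ).card : ℝ) =
      ∑ a ∈ univ.filter (fun a : α => P a), ((univ.filter fun b : β => Q (a, b)).card : ℝ) := by
  have h : (univ.filter fun τ : α × β => P τ.1 ∧ Q τ).card =
      ∑ a ∈ univ.filter (fun a : α => P a), (univ.filter fun b : β => Q (a, b)).card := by
    rw [Finset.card_eq_sum_card_fiberwise (f := fun τ : α × β => τ.1)
      (t := univ.filter (fun a : α => P a))]
    · refine sum_congr rfl fun a ha => ?_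
      have ha' : P a := (mem_filter.1 ha).2
      refine Finset.card_bij (fun τ _ => τ.2) ?_ ?_ ?_
      · intro τ hτ
        rw [mem_filter, mem_filter] at hτ
        obtain ⟨⟨_, _, h2⟩, h3⟩ := hτ
        rw [mem_filter]
        refine ⟨mem_univ _, ?_⟩
        have : (a, τ.2) = τ := by rw [← h3]
        rw [this]
        exact h2
      · intro τ hτ τ' hτ' hh
        rw [mem_filter] at hτ hτ'
        exact Prod.ext (hτ.2.trans hτ'.2.symm) hh
      · intro b hb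
        rw [mem_filter] at hb
        refine ⟨(a, b), ?_, rfl⟩
        rw [mem_filter, mem_filter]
        exact ⟨⟨mem_univ _, ha', hb.2⟩, rfl⟩
    · intro τ hτ
      have hτ' := (mem_filter.1 hτ).2.1
      exact mem_coe.2 (mem_filter.2 ⟨mem_univ _, hτ'⟩)
  rw [h]
  push_cast
  rfl

/-- **JOB TBS.** -/
theorem tbs (hFMG : Pool.Agent.Q283.PQ.S_FMG) (hLBS : Pool.Agent.Q283.FT.S_LBS) : Pool.Agent.Q283.PQ.S_TBS := by
  intro f t₀ c w 𝓛 ρ d h12 h01 h02 hcard htor ε hε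
  obtain ⟨R, hR1, hR⟩ := hFMG f (opS t₀ c w) (om_opS t₀ c w h12 h01 h02) d 𝓛 hcard ε hε
  obtain ⟨k0, hk0⟩ := hLBS f R (ε / 2) (by positivity)
  refine ⟨k0, fun k hk => ?_⟩
  have hb := hk0 k hk ρ
  set T : Finset (Fin k → Fin f → ZMod 2) :=
    univ.filter (fun φ : Fin k → Fin f → ZMod 2 => ∑ j, (1 : ZMod 2) • φ j = ρ) with hT
  set Bad : Finset (Fin k → Fin f → ZMod 2) := (univ.filter fun φ : Fin k → Fin f → ZMod 2 =>
    ∑ j, (1 : ZMod 2) • φ j = ρ ∧ ∃ χ, (univ.filter fun i => φ i = χ).card < R) with hBad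
  set N : ℝ := (Fintype.card (Tt k) : ℝ) with hN
  have hN0 : 0 ≤ N := Nat.cast_nonneg _
  let A : (Fin k → Fin f → ZMod 2) → ℝ := fun φ =>
    ((univ.filter fun t : Tt k => nSelG (djS t₀ c w 𝓛) (φ, t) ≠ 4).card : ℝ)
  have e1 : ((univ.filter fun τ : Tab 2 f k =>
      ∑ j, (1 : ZMod 2) • τ.1 j = ρ ∧ nSelG (djS t₀ c w 𝓛) τ ≠ 4).card : ℝ) = ∑ φ ∈ T, A φ :=
    card_fib (fun φ : Fin k → Fin f → ZMod 2 => ∑ j, (1 : ZMod 2) • φ j = ρ)
      (fun τ : Tab 2 f k => nSelG (djS t₀ c w 𝓛) τ ≠ 4)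
  have e2 : ((univ.filter fun τ : Tab 2 f k => ∑ j, (1 : ZMod 2) • τ.1 j = ρ).card : ℝ) =
      (T.card : ℝ) * N := by
    have h : ((univ.filter fun τ : Tab 2 f k => ∑ j, (1 : ZMod 2) • τ.1 j = ρ ∧ True).card : ℝ) =
        ∑ φ ∈ T, ((univ.filter fun _ : Tt k => True).card : ℝ) :=
      card_fib (fun φ : Fin k → Fin f → ZMod 2 => ∑ j, (1 : ZMod 2) • φ j = ρ)
      (fun τ : Tab 2 f k => True)
    have h2 : (univ.filter fun τ : Tab 2 f k => ∑ j, (1 : ZMod 2) • τ.1 j = ρ).card =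
        (univ.filter fun τ : Tab 2 f k => ∑ j, (1 : ZMod 2) • τ.1 j = ρ ∧ True).card := by
      refine congrArg Finset.card (Finset.ext fun τ => ?_)
      simp only [mem_filter, and_true]
    rw [h2, h]
    simp only [filter_true, card_univ, sum_const, nsmul_eq_mul]
    rfl
  rw [e1, e2]
  have hBT : Bad ⊆ T := by
    intro φ hφ
    rw [hBad, mem_filter] at hφ
    rw [hT, mem_filter]
    exact ⟨mem_univ _, hφ.2.1⟩
  have hA1 : ∀ φ, A φ ≤ N := fun φ => by
    have : (univ.filter fun t : Tt k => nSelG (djS t₀ c w 𝓛) (φ, t) ≠ 4).card ≤ Fintype.card (Tt k) :=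
      Finset.card_le_univ _
    exact Nat.cast_le.2 this
  have hg : ∀ φ ∈ T \ Bad, A φ ≤ (2 / 2 ^ d + ε / 4) * N := by
    intro φ hφ
    rw [Finset.mem_sdiff] at hφ
    have h1 : ∑ j, (1 : ZMod 2) • φ j = ρ := (mem_filter.1 hφ.1).2
    have h2 : ∀ χ, R ≤ (univ.filter fun i => φ i = χ).card := by
      intro χ
      by_contra hlt
      push Not at hlt
      exact hφ.2 (mem_filter.2 ⟨mem_univ _, h1, χ, hlt⟩)
    have h3 : ∑ j, φ j = ρ := by
      rw [← h1]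
      exact sum_congr rfl fun j _ => (one_smul _ _).symm
    have hall : ∀ χ, ∃ i, φ i = χ := by
      intro χ
      have h4 : 0 < (univ.filter fun i => φ i = χ).card := lt_of_lt_of_le hR1 (h2 χ)
      obtain ⟨i, hi⟩ := Finset.card_pos.1 h4
      exact ⟨i, (mem_filter.1 hi).2⟩
    have h5 := hR k φ (fix t₀ φ) h2
    have h6 : 4 * A φ ≤ ∑ t : Tt k, ((NonC (opS t₀ c w) 𝓛 φ (fix t₀ φ) t).ncard : ℝ) := by
      have h7 : 4 * A φ = ∑ t ∈ univ.filter (fun t : Tt k => nSelG (djS t₀ c w 𝓛) (φ, t) ≠ 4), (4 : ℝ) := by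
        rw [sum_const, nsmul_eq_mul, mul_comm]
      rw [h7]
      refine (sum_le_sum fun t ht => ?_).trans
        (sum_le_sum_of_subset_of_nonneg (filter_subset _ _) fun t _ _ => Nat.cast_nonneg _)
      have h8 := four_le t₀ c w 𝓛 htor φ h3 hall t (mem_filter.1 ht).2
      exact_mod_cast h8
    have h9 : 4 * A φ ≤ (8 / 2 ^ d + ε) * N := h6.trans h5
    have h10 : (8 / 2 ^ d + ε) * N = 4 * ((2 / 2 ^ d + ε / 4) * N) := by ring
    rw [h10] at h9
    exact le_of_mul_le_mul_left h9 (by norm_num)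
  have s1 : ∑ φ ∈ T \ Bad, A φ ≤ (T.card : ℝ) * ((2 / 2 ^ d + ε / 4) * N) := by
    refine (sum_le_sum hg).trans ?_
    rw [sum_const, nsmul_eq_mul]
    have : ((T \ Bad).card : ℝ) ≤ (T.card : ℝ) := by
      exact_mod_cast card_le_card sdiff_subset
    exact mul_le_mul_of_nonneg_right this (by positivity)
  have s2 : ∑ φ ∈ Bad, A φ ≤ (ε / 2 * (T.card : ℝ)) * N := by
    refine (sum_le_sum fun φ _ => hA1 φ).trans ?_
    rw [sum_const, nsmul_eq_mul]
    exact mul_le_mul_of_nonneg_right hb hN0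
  rw [← sum_sdiff hBT]
  have hTN : 0 ≤ (T.card : ℝ) * N := mul_nonneg (Nat.cast_nonneg _) hN0
  calc ∑ φ ∈ T \ Bad, A φ + ∑ φ ∈ Bad, A φ
      ≤ (T.card : ℝ) * ((2 / 2 ^ d + ε / 4) * N) + (ε / 2 * (T.card : ℝ)) * N := add_le_add s1 s2
    _ = (2 / 2 ^ d + ε) * ((T.card : ℝ) * N) - ε / 4 * ((T.card : ℝ) * N) := by ring
    _ ≤ (2 / 2 ^ d + ε) * ((T.card : ℝ) * N) := by
        have h11 : 0 ≤ ε / 4 * ((T.card : ℝ) * N) := mul_nonneg (by positivity) hTN
        linarith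

end Pool.Agent.Q153.PQ.TB
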